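import Pool.Agent.helper62.MS.SpecE

set_option autoImplicit false

open scoped MatrixGroups Topology UpperHalfPlane
open UpperHalfPlane MeasureTheory Filter Set

namespace Pool.Agent.MS

open Pool.Agent.EN (XG MG mkX mkM fl pr Hn)
open Pool.Agent.LL (Sys cyl)

theorem CNC_real {X : Type} [MeasurableSpace X] (μ : Measure X) [IsProbabilityMeasure μ] {Y : Set X}
    (hY : MeasurableSet Y) (A : Set X) :
    μ.real Y * (ProbabilityTheory.cond μ Y).real A = μ.real (Y ∩ A) := by
  have h := ProbabilityTheory.cond_mul_eq_inter hY A μ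
  have h1 := congrArg ENNReal.toReal h
  rw [ENNReal.toReal_mul] at h1
  rw [mul_comm]
  exact h1

theorem CNC_proof : CNC_stmt := by
  intro X _ μ T p P Y N hμ hT hP hY hY0 hYc0
  have h1 : μ.real Y + μ.real Yᶜ = 1 := by
    rw [measureReal_add_measureReal_compl hY]
    exact probReal_univ
  unfold EN.Hn
  rw [Finset.mul_sum, Finset.mul_sum, ← Finset.sum_add_distrib]
  refine Finset.sum_le_sum fun w _ => ?_
  set A : Set X := {x | ∀ i : Fin N, P (T^[i] x) = w i} with hA
  have hAm : μ.real A = μ.real Y * (ProbabilityTheory.cond μ Y).real A + μ.real Yᶜ * (ProbabilityTheory.cond μ Yᶜ).real A := by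
    rw [CNC_real μ hY, CNC_real μ hY.compl]
    have h2 := measureReal_inter_add_sdiff (μ := μ) (s := A) hY
    rw [inter_comm Y A, inter_comm Yᶜ A, ← h2]
    rfl
  rw [hAm]
  have h3 := Real.concaveOn_negMulLog.2 (x := (ProbabilityTheory.cond μ Y).real A) (y := (ProbabilityTheory.cond μ Yᶜ).real A)
    measureReal_nonneg measureReal_nonneg (measureReal_nonneg (μ := μ) (s := Y)) (measureReal_nonneg (μ := μ) (s := Yᶜ)) h1
  simpa only [smul_eq_mul] using h3

end Pool.Agent.MS
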